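import Pool.Agent.Helper43.RS.Spec

/-! Square roots near the identity (modules SQB and SQA). -/

set_option autoImplicit false

namespace Pool.Agent.Helper43.RS

open MvPolynomial

/-! ### Banach algebras -/

theorem sqb_unique {𝔸 : Type*} [NormedRing 𝔸] [NormedAlgebra ℂ 𝔸] (a b : 𝔸) (ha : ‖a‖ ≤ 1 / 4)
    (hb : ‖b‖ ≤ 1 / 4) (h : (1 + a) * (1 + a) = (1 + b) * (1 + b)) : a = b := by
  have h1 : (2 : ℂ) • (a - b) = -(a * (a - b) + (a - b) * b) := by
    rw [two_smul]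
    have h2 : a + a + a * a = b + b + b * b := by
      have h3 : (1 + a) * (1 + a) = 1 + (a + a + a * a) := by noncomm_ring
      have h4 : (1 + b) * (1 + b) = 1 + (b + b + b * b) := by noncomm_ring
      rw [h3, h4] at h
      exact add_left_cancel h
    have h5 : a - b + (a - b) = (a + a + a * a) - (b + b + b * b) - (a * a - b * b) := by noncomm_ring
    rw [h5, h2]
    noncomm_ring
  have h6 : ‖(2 : ℂ) • (a - b)‖ = 2 * ‖a - b‖ := by
    rw [norm_smul]; norm_num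
  have h7 : ‖-(a * (a - b) + (a - b) * b)‖ ≤ 1 / 4 * ‖a - b‖ + ‖a - b‖ * (1 / 4) := by
    rw [norm_neg]
    refine (norm_add_le _ _).trans (add_le_add ((norm_mul_le _ _).trans ?_)
      ((norm_mul_le _ _).trans ?_))
    · exact mul_le_mul_of_nonneg_right ha (norm_nonneg _)
    · exact mul_le_mul_of_nonneg_left hb (norm_nonneg _)
  rw [← h1, h6] at h7
  have h8 : ‖a - b‖ ≤ 0 := by
    have := norm_nonneg (a - b)
    linarith
  exact sub_eq_zero.1 (norm_le_zero_iff.1 h8)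

theorem sqb_exists {𝔸 : Type*} [NormedRing 𝔸] [NormedAlgebra ℂ 𝔸] [CompleteSpace 𝔸]
    (S : Subalgebra ℂ 𝔸) (hS : IsClosed (S : Set 𝔸)) (x : 𝔸) (hx : x ∈ S)
    (h : ‖x - 1‖ ≤ 1 / 4) : ∃ a ∈ S, ‖a‖ ≤ ‖x - 1‖ ∧ (1 + a) * (1 + a) = x := by
  set r := ‖x - 1‖ with hr
  have hr0 : 0 ≤ r := norm_nonneg _
  let s : ℕ → 𝔸 := fun k => Nat.rec 0 (fun _ a => (1 / 2 : ℂ) • ((x - 1) - a * a)) k
  have s0 : s 0 = 0 := rfl
  have ss : ∀ k, s (k + 1) = (1 / 2 : ℂ) • ((x - 1) - s k * s k) := fun k => rfl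
  have hmem : ∀ k, s k ∈ S := by
    intro k
    induction k with
    | zero => rw [s0]; exact S.zero_mem
    | succ k ih =>
      rw [ss]
      exact S.smul_mem (S.sub_mem (S.sub_mem hx S.one_mem) (S.mul_mem ih ih)) _
  have hn2 : ‖(1 / 2 : ℂ)‖ = 1 / 2 := by norm_num
  have hb : ∀ k, ‖s k‖ ≤ r := by
    intro k
    induction k with
    | zero => rw [s0, norm_zero]; exact hr0
    | succ k ih =>
      rw [ss, norm_smul, hn2]
      have h1 : ‖(x - 1) - s k * s k‖ ≤ r + r * r :=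
        (norm_sub_le _ _).trans (add_le_add le_rfl ((norm_mul_le _ _).trans
          (mul_le_mul ih ih (norm_nonneg _) hr0)))
      nlinarith
  have hstep : ∀ k, dist (s k) (s (k + 1)) ≤ 1 / 2 * (1 / 2) ^ k := by
    intro k
    induction k with
    | zero =>
      rw [s0, dist_zero_left]
      have := hb 1
      simp only [zero_add, pow_zero, mul_one]
      linarith
    | succ k ih =>
      rw [dist_eq_norm, ss k, ss (k + 1), ← smul_sub, norm_smul, hn2]
      have h1 : (x - 1 - s k * s k) - (x - 1 - s (k + 1) * s (k + 1)) =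
          s (k + 1) * (s (k + 1) - s k) + (s (k + 1) - s k) * s k := by noncomm_ring
      rw [h1]
      have h2 : ‖s (k + 1) * (s (k + 1) - s k) + (s (k + 1) - s k) * s k‖ ≤
          1 / 4 * ‖s (k + 1) - s k‖ + ‖s (k + 1) - s k‖ * (1 / 4) := by
        refine (norm_add_le _ _).trans (add_le_add ((norm_mul_le _ _).trans ?_)
          ((norm_mul_le _ _).trans ?_))
        · exact mul_le_mul_of_nonneg_right ((hb (k + 1)).trans h) (norm_nonneg _)
        · exact mul_le_mul_of_nonneg_left ((hb k).trans h) (norm_nonneg _)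
      have h3 : ‖s (k + 1) - s k‖ ≤ 1 / 2 * (1 / 2) ^ k := by
        rw [← dist_eq_norm, dist_comm]; exact ih
      have h4 : (0 : ℝ) ≤ (1 / 2) ^ k := by positivity
      rw [pow_succ]
      nlinarith
  have hc : CauchySeq s := cauchySeq_of_le_geometric (1 / 2) (1 / 2) (by norm_num) hstep
  obtain ⟨a, ha⟩ := cauchySeq_tendsto_of_complete hc
  refine ⟨a, hS.mem_of_tendsto ha (Filter.Eventually.of_forall hmem), ?_, ?_⟩
  · exact le_of_tendsto ha.norm (Filter.Eventually.of_forall hb)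
  · have h1 : Filter.Tendsto (fun k => s (k + 1)) Filter.atTop (nhds a) :=
      (Filter.tendsto_add_atTop_iff_nat 1).2 ha
    have h2 : Filter.Tendsto (fun k => s (k + 1)) Filter.atTop
        (nhds ((1 / 2 : ℂ) • ((x - 1) - a * a))) :=
      ((tendsto_const_nhds.sub (ha.mul ha)).const_smul (1 / 2 : ℂ))
    have h3 := tendsto_nhds_unique h1 h2
    have h4 : a + a = (x - 1) - a * a := by
      have h5 : (2 : ℂ) • a = (2 : ℂ) • ((1 / 2 : ℂ) • ((x - 1) - a * a)) := congrArg _ h3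
      rw [smul_smul] at h5
      norm_num at h5
      rw [two_smul] at h5
      exact h5
    have h6 : (1 + a) * (1 + a) = 1 + (a + a) + a * a := by noncomm_ring
    rw [h6, h4]
    noncomm_ring

section
attribute [local instance] Matrix.linftyOpNormedRing Matrix.linftyOpNormedAlgebra

theorem sqb_entry_le {κ : Type} [Fintype κ] [DecidableEq κ] (M : Matrix κ κ ℂ) (i j : κ) :
    ‖M i j‖ ≤ ‖M‖ := by
  rw [Matrix.linfty_opNorm_def]
  have h1 : ‖M i j‖₊ ≤ ∑ j, ‖M i j‖₊ :=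
    Finset.single_le_sum (f := fun j => ‖M i j‖₊) (fun _ _ => by positivity) (Finset.mem_univ j)
  have h2 : (∑ j, ‖M i j‖₊) ≤ Finset.univ.sup fun i => ∑ j, ‖M i j‖₊ :=
    Finset.le_sup (f := fun i => ∑ j, ‖M i j‖₊) (Finset.mem_univ i)
  exact_mod_cast h1.trans h2

theorem sqb_norm_le {κ : Type} [Fintype κ] [DecidableEq κ] (M : Matrix κ κ ℂ) (c : ℝ) (hc : 0 ≤ c)
    (h : ∀ i j, ‖M i j‖ ≤ c) : ‖M‖ ≤ Fintype.card κ * c := by
  rw [Matrix.linfty_opNorm_def]
  have h0 : (0 : ℝ) ≤ Fintype.card κ * c := by positivity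
  have h1 : (Finset.univ.sup fun i => ∑ j, ‖M i j‖₊) ≤ (⟨Fintype.card κ * c, h0⟩ : NNReal) := by
    refine Finset.sup_le fun i _ => ?_
    rw [← NNReal.coe_le_coe]
    push_cast
    calc ∑ j, ‖M i j‖ ≤ ∑ _j : κ, c := Finset.sum_le_sum fun j _ => h i j
      _ = Fintype.card κ * c := by simp
  exact_mod_cast h1

theorem sqb_small {n : ℕ} {η : ℝ} (hη : 0 < η) :
    ∃ δ > 0, ∀ x : GL (Fin n) ℂ, Near δ x → ‖(x : Matrix (Fin n) (Fin n) ℂ) - 1‖ < η := by
  refine ⟨η / (n + 1) / 2, by positivity, fun x hx => ?_⟩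
  have h1 := sqb_norm_le ((x : Matrix (Fin n) (Fin n) ℂ) - 1) (η / (n + 1) / 2) (by positivity)
    (fun i j => (hx i j).le)
  rw [Fintype.card_fin] at h1
  refine h1.trans_lt ?_
  have h2 : (n : ℝ) / (n + 1) ≤ 1 := by
    rw [div_le_one (by positivity)]; linarith
  calc (n : ℝ) * (η / (n + 1) / 2) = (n / (n + 1)) * (η / 2) := by ring
    _ ≤ 1 * (η / 2) := mul_le_mul_of_nonneg_right h2 (by positivity)
    _ < η := by linarith

theorem st_SQB : ST_SQB := by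
  constructor
  · intro n ε hε
    obtain ⟨δ, hδ, h⟩ := sqb_small (n := n) (η := min ε (1 / 4)) (lt_min hε (by norm_num))
    refine ⟨δ, hδ, fun x hx => ?_⟩
    have h1 := h x hx
    obtain ⟨a, -, ha, hax⟩ := sqb_exists (⊤ : Subalgebra ℂ (Matrix (Fin n) (Fin n) ℂ))
      isClosed_univ (x : Matrix (Fin n) (Fin n) ℂ) trivial (h1.le.trans (min_le_right _ _))
    have hdet : (1 + a).det ≠ 0 := by
      intro h0
      have h2 : (x : Matrix (Fin n) (Fin n) ℂ).det = 0 := by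
        rw [← hax, Matrix.det_mul, h0, zero_mul]
      exact (Matrix.isUnits_det_units x).ne_zero h2
    refine ⟨Matrix.GeneralLinearGroup.mkOfDetNeZero (1 + a) hdet, ?_, ?_⟩
    · intro i j
      have h3 : ((Matrix.GeneralLinearGroup.mkOfDetNeZero (1 + a) hdet : GL (Fin n) ℂ) :
          Matrix (Fin n) (Fin n) ℂ) i j - (1 : Matrix (Fin n) (Fin n) ℂ) i j = a i j := by
        show (1 + a) i j - (1 : Matrix (Fin n) (Fin n) ℂ) i j = a i j
        rw [Matrix.add_apply]; ring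
      rw [h3]
      exact (sqb_entry_le a i j).trans_lt (ha.trans_lt (h1.trans_le (min_le_left _ _)))
    · apply Units.ext
      exact hax
  · intro n
    obtain ⟨δ, hδ, h⟩ := sqb_small (n := n) (η := 1 / 4) (by norm_num)
    refine ⟨δ, hδ, fun y z hy hz hyz => ?_⟩
    have h1 := sqb_unique ((y : Matrix (Fin n) (Fin n) ℂ) - 1) ((z : Matrix (Fin n) (Fin n) ℂ) - 1)
      (h y hy).le (h z hz).le (by
        rw [add_sub_cancel, add_sub_cancel]
        have := congrArg (fun g : GL (Fin n) ℂ => (g : Matrix (Fin n) (Fin n) ℂ)) hyz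
        simpa using this)
    apply Units.ext
    exact sub_left_inj.1 h1

/-! ### SQA -/

/-- matrix coefficients of representations which are continuous at the identity -/
def sqaRep {n : ℕ} (F : GL (Fin n) ℂ → ℂ) : Prop :=
  ∃ (κ : Type) (_ : Fintype κ) (_ : DecidableEq κ) (T : GL (Fin n) ℂ →* Matrix κ κ ℂ)
    (u v : κ → ℂ), (∀ η > 0, ∃ ε > 0, ∀ y, Near ε y → ∀ i j, ‖T y i j - (1 : Matrix κ κ ℂ) i j‖ < η) ∧
      ∀ g, F g = u ⬝ᵥ (T g).mulVec v

theorem sqa_const {n : ℕ} (c : ℂ) : sqaRep (n := n) (fun _ => c) := by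
  refine ⟨Unit, inferInstance, inferInstance, 1, fun _ => c, fun _ => 1, ?_, ?_⟩
  · intro η hη
    refine ⟨1, one_pos, fun y _ i j => ?_⟩
    simpa using hη
  · intro g
    simp

theorem sqa_fst {n : ℕ} (i j : Fin n) :
    sqaRep (fun g : GL (Fin n) ℂ => (g : Matrix (Fin n) (Fin n) ℂ) i j) := by
  refine ⟨Fin n, inferInstance, inferInstance, Units.coeHom _, Pi.single i 1, Pi.single j 1, ?_, ?_⟩
  · intro η hη
    exact ⟨η, hη, fun y hy i j => hy i j⟩
  · intro g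
    simp

theorem sqa_inv_near {n : ℕ} {η : ℝ} (hη : 0 < η) : ∃ ε > 0, ∀ y : GL (Fin n) ℂ, Near ε y →
    ∀ i j, ‖((y⁻¹ : GL (Fin n) ℂ) : Matrix (Fin n) (Fin n) ℂ) i j -
      (1 : Matrix (Fin n) (Fin n) ℂ) i j‖ < η := by
  obtain ⟨δ, hδ, h⟩ := sqb_small (n := n) (η := min (η / 2) (1 / 2)) (lt_min (by linarith) (by norm_num))
  refine ⟨δ, hδ, fun y hy i j => ?_⟩
  set b := (y : Matrix (Fin n) (Fin n) ℂ) - 1 with hb
  set w := ((y⁻¹ : GL (Fin n) ℂ) : Matrix (Fin n) (Fin n) ℂ) - 1 with hw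
  have h1 : ‖b‖ < min (η / 2) (1 / 2) := h y hy
  have h2 : ((y⁻¹ : GL (Fin n) ℂ) : Matrix (Fin n) (Fin n) ℂ) * (y : Matrix (Fin n) (Fin n) ℂ) = 1 := by
    rw [← Units.val_mul, inv_mul_cancel]; rfl
  have h3 : w = -(w * b) - b := by
    have h4 : (1 + w) * (1 + b) = 1 := by
      rw [hb, hw, add_sub_cancel, add_sub_cancel]; exact h2
    have h5 : (1 + w) * (1 + b) = 1 + (w + b + w * b) := by noncomm_ring
    rw [h5] at h4
    have h6 : w + b + w * b = 0 := by simpa using h4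
    exact eq_sub_of_add_eq (eq_neg_of_add_eq_zero_left h6)
  have h8 : ‖w‖ ≤ ‖w‖ * ‖b‖ + ‖b‖ := by
    calc ‖w‖ = ‖-(w * b) - b‖ := congrArg _ h3
      _ ≤ ‖-(w * b)‖ + ‖b‖ := norm_sub_le _ _
      _ ≤ ‖w‖ * ‖b‖ + ‖b‖ := by
        rw [norm_neg]; exact add_le_add (norm_mul_le _ _) le_rfl
  have h9 : ‖b‖ < η / 2 := h1.trans_le (min_le_left _ _)
  have h10 : ‖b‖ < 1 / 2 := h1.trans_le (min_le_right _ _)
  have h11 : ‖w‖ < η := by
    have := norm_nonneg w
    have := norm_nonneg b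
    nlinarith
  have h12 : ((y⁻¹ : GL (Fin n) ℂ) : Matrix (Fin n) (Fin n) ℂ) i j -
      (1 : Matrix (Fin n) (Fin n) ℂ) i j = w i j := by
    rw [hw, Matrix.sub_apply]
  rw [h12]
  exact (sqb_entry_le w i j).trans_lt h11

theorem sqa_snd {n : ℕ} (i j : Fin n) :
    sqaRep (fun g : GL (Fin n) ℂ => ((g⁻¹ : GL (Fin n) ℂ) : Matrix (Fin n) (Fin n) ℂ) i j) := by
  refine ⟨Fin n, inferInstance, inferInstance,
    { toFun := fun g => ((g⁻¹ : GL (Fin n) ℂ) : Matrix (Fin n) (Fin n) ℂ).transpose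
      map_one' := by simp
      map_mul' := by
        intro g h
        rw [mul_inv_rev, Units.val_mul, Matrix.transpose_mul] },
    Pi.single j 1, Pi.single i 1, ?_, ?_⟩
  · intro η hη
    obtain ⟨ε, hε, h⟩ := sqa_inv_near (n := n) hη
    refine ⟨ε, hε, fun y hy i j => ?_⟩
    have h1 := h y hy j i
    have h2 : (1 : Matrix (Fin n) (Fin n) ℂ) i j = (1 : Matrix (Fin n) (Fin n) ℂ) j i := by
      rw [Matrix.one_apply, Matrix.one_apply]
      by_cases hij : i = j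
      · rw [if_pos hij, if_pos hij.symm]
      · rw [if_neg hij, if_neg (Ne.symm hij)]
    rw [h2]
    exact h1
  · intro g
    simp

theorem sqa_add {n : ℕ} {F₁ F₂ : GL (Fin n) ℂ → ℂ} (h1 : sqaRep F₁) (h2 : sqaRep F₂) :
    sqaRep (fun g => F₁ g + F₂ g) := by
  obtain ⟨κ₁, _, _, T₁, u₁, v₁, c₁, e₁⟩ := h1
  obtain ⟨κ₂, _, _, T₂, u₂, v₂, c₂, e₂⟩ := h2
  refine ⟨κ₁ ⊕ κ₂, inferInstance, inferInstance,
    { toFun := fun g => Matrix.fromBlocks (T₁ g) 0 0 (T₂ g)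
      map_one' := by
        rw [map_one, map_one, Matrix.fromBlocks_one]
      map_mul' := by
        intro g h
        rw [map_mul, map_mul, Matrix.fromBlocks_multiply]
        simp },
    Sum.elim u₁ u₂, Sum.elim v₁ v₂, ?_, ?_⟩
  · intro η hη
    obtain ⟨ε₁, hε₁, h₁⟩ := c₁ η hη
    obtain ⟨ε₂, hε₂, h₂⟩ := c₂ η hη
    refine ⟨min ε₁ ε₂, lt_min hε₁ hε₂, fun y hy i j => ?_⟩
    have hy1 : Near ε₁ y := fun i j => (hy i j).trans_le (min_le_left _ _)
    have hy2 : Near ε₂ y := fun i j => (hy i j).trans_le (min_le_right _ _)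
    rcases i with i | i <;> rcases j with j | j
    · have := h₁ y hy1 i j
      simpa [Matrix.one_apply] using this
    · simpa [Matrix.one_apply] using hη
    · simpa [Matrix.one_apply] using hη
    · have := h₂ y hy2 i j
      simpa [Matrix.one_apply] using this
  · intro g
    show F₁ g + F₂ g = _
    rw [e₁, e₂]
    show _ = Sum.elim u₁ u₂ ⬝ᵥ (Matrix.fromBlocks (T₁ g) 0 0 (T₂ g)).mulVec (Sum.elim v₁ v₂)
    rw [Matrix.fromBlocks_mulVec]
    simp [dotProduct]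

theorem sqa_mul {n : ℕ} {F₁ F₂ : GL (Fin n) ℂ → ℂ} (h1 : sqaRep F₁) (h2 : sqaRep F₂) :
    sqaRep (fun g => F₁ g * F₂ g) := by
  obtain ⟨κ₁, _, _, T₁, u₁, v₁, c₁, e₁⟩ := h1
  obtain ⟨κ₂, _, _, T₂, u₂, v₂, c₂, e₂⟩ := h2
  refine ⟨κ₁ × κ₂, inferInstance, inferInstance,
    { toFun := fun g => Matrix.kroneckerMap (· * ·) (T₁ g) (T₂ g)
      map_one' := by
        rw [map_one, map_one, Matrix.one_kronecker_one]
      map_mul' := by
        intro g h
        rw [map_mul, map_mul, Matrix.mul_kronecker_mul] },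
    fun k => u₁ k.1 * u₂ k.2, fun k => v₁ k.1 * v₂ k.2, ?_, ?_⟩
  · intro η hη
    obtain ⟨ε₁, hε₁, h₁⟩ := c₁ (min 1 (η / 3)) (lt_min one_pos (by linarith))
    obtain ⟨ε₂, hε₂, h₂⟩ := c₂ (min 1 (η / 3)) (lt_min one_pos (by linarith))
    refine ⟨min ε₁ ε₂, lt_min hε₁ hε₂, fun y hy i j => ?_⟩
    have hy1 : Near ε₁ y := fun i j => (hy i j).trans_le (min_le_left _ _)
    have hy2 : Near ε₂ y := fun i j => (hy i j).trans_le (min_le_right _ _)
    have a1 := h₁ y hy1 i.1 j.1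
    have a2 := h₂ y hy2 i.2 j.2
    have hone : (1 : Matrix (κ₁ × κ₂) (κ₁ × κ₂) ℂ) i j =
        (1 : Matrix κ₁ κ₁ ℂ) i.1 j.1 * (1 : Matrix κ₂ κ₂ ℂ) i.2 j.2 := by
      rw [← Matrix.one_kronecker_one]; rfl
    have hle : ‖(1 : Matrix κ₁ κ₁ ℂ) i.1 j.1‖ ≤ 1 := by
      rw [Matrix.one_apply]; split_ifs <;> simp
    have hle2 : ‖(1 : Matrix κ₂ κ₂ ℂ) i.2 j.2‖ ≤ 1 := by
      rw [Matrix.one_apply]; split_ifs <;> simp
    rw [hone]
    show ‖T₁ y i.1 j.1 * T₂ y i.2 j.2 - _‖ < η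
    set p := T₁ y i.1 j.1 - (1 : Matrix κ₁ κ₁ ℂ) i.1 j.1 with hp
    set q := T₂ y i.2 j.2 - (1 : Matrix κ₂ κ₂ ℂ) i.2 j.2 with hq
    have hexp : T₁ y i.1 j.1 * T₂ y i.2 j.2 - (1 : Matrix κ₁ κ₁ ℂ) i.1 j.1 * (1 : Matrix κ₂ κ₂ ℂ) i.2 j.2
        = p * q + p * (1 : Matrix κ₂ κ₂ ℂ) i.2 j.2 + (1 : Matrix κ₁ κ₁ ℂ) i.1 j.1 * q := by
      rw [hp, hq]; ring
    rw [hexp]
    have b1 : ‖p‖ < 1 := a1.trans_le (min_le_left _ _)
    have b2 : ‖p‖ < η / 3 := a1.trans_le (min_le_right _ _)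
    have b3 : ‖q‖ < η / 3 := a2.trans_le (min_le_right _ _)
    calc ‖p * q + p * (1 : Matrix κ₂ κ₂ ℂ) i.2 j.2 + (1 : Matrix κ₁ κ₁ ℂ) i.1 j.1 * q‖
        ≤ ‖p * q‖ + ‖p * (1 : Matrix κ₂ κ₂ ℂ) i.2 j.2‖ + ‖(1 : Matrix κ₁ κ₁ ℂ) i.1 j.1 * q‖ :=
          norm_add₃_le
      _ = ‖p‖ * ‖q‖ + ‖p‖ * ‖(1 : Matrix κ₂ κ₂ ℂ) i.2 j.2‖ + ‖(1 : Matrix κ₁ κ₁ ℂ) i.1 j.1‖ * ‖q‖ := by
          rw [norm_mul, norm_mul, norm_mul]
      _ < η := by
          have := norm_nonneg p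
          have := norm_nonneg q
          nlinarith
  · intro g
    show F₁ g * F₂ g = _
    rw [e₁, e₂]
    simp only [dotProduct, Matrix.mulVec, MonoidHom.coe_mk, OneHom.coe_mk, Matrix.kroneckerMap_apply,
      Fintype.sum_prod_type, Finset.sum_mul_sum]
    refine Finset.sum_congr rfl fun a _ => Finset.sum_congr rfl fun b _ => ?_
    have : (∑ x, ∑ y, T₁ g a x * T₂ g b y * (v₁ x * v₂ y)) =
        (∑ x, T₁ g a x * v₁ x) * ∑ y, T₂ g b y * v₂ y := by
      rw [Finset.sum_mul_sum]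
      refine Finset.sum_congr rfl fun x _ => Finset.sum_congr rfl fun y _ => by ring
    rw [this]
    ring

theorem sqa_poly {n : ℕ} (p : MvPolynomial ((Fin n × Fin n) ⊕ (Fin n × Fin n)) ℂ) :
    sqaRep (fun g : GL (Fin n) ℂ => eval (entries g) p) := by
  induction p using MvPolynomial.induction_on with
  | C a => simpa using sqa_const (n := n) a
  | add p q hp hq => simpa using sqa_add hp hq
  | mul_X p k hp =>
    have hk : sqaRep (fun g : GL (Fin n) ℂ => entries g k) := by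
      rcases k with ⟨i, j⟩ | ⟨i, j⟩
      · exact sqa_fst i j
      · exact sqa_snd i j
    simpa using sqa_mul hp hk

theorem sqa_self {κ : Type} [Fintype κ] [DecidableEq κ] (M : Matrix κ κ ℂ)
    (h : ‖M - 1‖ ≤ 1 / 16) : M ∈ Algebra.adjoin ℂ {M * M} := by
  have hcl : IsClosed ((Algebra.adjoin ℂ {M * M} : Subalgebra ℂ (Matrix κ κ ℂ)) : Set (Matrix κ κ ℂ)) := by
    have := Submodule.closed_of_finiteDimensional
      (Subalgebra.toSubmodule (Algebra.adjoin ℂ {M * M}))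
    exact this
  have hx : ‖M * M - 1‖ ≤ 1 / 4 := by
    have h1 : M * M - 1 = (M - 1) + (M - 1) + (M - 1) * (M - 1) := by noncomm_ring
    rw [h1]
    have h2 : ‖(M - 1) + (M - 1) + (M - 1) * (M - 1)‖ ≤ ‖M - 1‖ + ‖M - 1‖ + ‖M - 1‖ * ‖M - 1‖ :=
      norm_add₃_le.trans (by
        have := norm_mul_le (M - 1) (M - 1)
        linarith)
    have := norm_nonneg (M - 1)
    nlinarith
  obtain ⟨a, haS, ha, hax⟩ := sqb_exists (Algebra.adjoin ℂ {M * M}) hcl (M * M)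
    (Algebra.subset_adjoin rfl) hx
  have h3 := sqb_unique (M - 1) a (h.trans (by norm_num)) (ha.trans hx) (by
    rw [hax]; noncomm_ring)
  have h4 : M = 1 + a := by rw [← h3]; noncomm_ring
  rw [h4]
  have h5 : (1 + a) * (1 + a) = M * M := hax
  rw [h5]
  exact Subalgebra.add_mem _ (Subalgebra.one_mem _) haS

theorem sqa_main {n : ℕ} {F : GL (Fin n) ℂ → ℂ} (hF : sqaRep F) : ∃ ε > 0, ∀ y : GL (Fin n) ℂ,
    Near ε y → (∀ m : ℕ, F ((y * y) ^ m) = 0) → F y = 0 := by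
  obtain ⟨κ, _, _, T, u, v, hc, hF⟩ := hF
  obtain ⟨ε, hε, h⟩ := hc (1 / 16 / (Fintype.card κ + 1)) (by positivity)
  refine ⟨ε, hε, fun y hy h0 => ?_⟩
  have h1 : ‖T y - 1‖ ≤ 1 / 16 := by
    refine (sqb_norm_le (T y - 1) (1 / 16 / (Fintype.card κ + 1)) (by positivity)
      (fun i j => (h y hy i j).le)).trans ?_
    have h2 : (Fintype.card κ : ℝ) / (Fintype.card κ + 1) ≤ 1 := by
      rw [div_le_one (by positivity)]; linarith
    calc (Fintype.card κ : ℝ) * (1 / 16 / (Fintype.card κ + 1)) =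
        (Fintype.card κ : ℝ) / (Fintype.card κ + 1) * (1 / 16) := by ring
      _ ≤ 1 * (1 / 16) := mul_le_mul_of_nonneg_right h2 (by norm_num)
      _ = 1 / 16 := one_mul _
  have h2 := sqa_self (T y) h1
  rw [Algebra.adjoin_singleton_eq_range_aeval] at h2
  obtain ⟨q, hq⟩ := h2
  let L : Matrix κ κ ℂ →ₗ[ℂ] ℂ :=
    { toFun := fun M => u ⬝ᵥ M.mulVec v
      map_add' := by intro a b; rw [Matrix.add_mulVec, dotProduct_add]
      map_smul' := by intro c a; rw [Matrix.smul_mulVec, dotProduct_smul]; rfl }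
  have hL : ∀ m : ℕ, L ((T y * T y) ^ m) = 0 := by
    intro m
    have := h0 m
    rw [hF, map_pow, map_mul] at this
    exact this
  have h3 : L (T y) = 0 := by
    have h4 : T y = Polynomial.aeval (T y * T y) q := hq.symm
    rw [h4, Polynomial.aeval_eq_sum_range, map_sum]
    refine Finset.sum_eq_zero fun m _ => ?_
    rw [map_smul]
    have := hL m
    rw [this, smul_zero]
  rw [hF]
  exact h3

end

theorem st_SQA : ST_SQA := by
  intro n A hA
  obtain ⟨I, hI⟩ := hA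
  obtain ⟨s, hs⟩ := (isNoetherianRing_iff_ideal_fg _).1
    (inferInstance : IsNoetherianRing (MvPolynomial ((Fin n × Fin n) ⊕ (Fin n × Fin n)) ℂ))
    (Ideal.span I)
  have key : ∀ g : GL (Fin n) ℂ, g ∈ A ↔ ∀ p ∈ s, eval (entries g) p = 0 := by
    intro g
    have h1 : g ∈ A ↔ ∀ p ∈ I, eval (entries g) p = 0 := by
      have : g ∈ (A : Set (GL (Fin n) ℂ)) ↔ g ∈ {g | ∀ p ∈ I, eval (entries g) p = 0} := by rw [hI]
      exact this
    rw [h1]
    have h2 : (∀ p ∈ I, eval (entries g) p = 0) ↔ Ideal.span I ≤ RingHom.ker (eval (entries g)) := by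
      rw [Ideal.span_le]; rfl
    have h3 : (∀ p ∈ s, eval (entries g) p = 0) ↔
        Ideal.span (s : Set (MvPolynomial ((Fin n × Fin n) ⊕ (Fin n × Fin n)) ℂ)) ≤
          RingHom.ker (eval (entries g)) := by
      rw [Ideal.span_le]; rfl
    rw [h2, h3]
    rw [show Ideal.span (s : Set (MvPolynomial ((Fin n × Fin n) ⊕ (Fin n × Fin n)) ℂ)) =
      Ideal.span I from hs]
  have heps : ∃ ε > 0, ∀ p ∈ s, ∀ y : GL (Fin n) ℂ, Near ε y →
      (∀ m : ℕ, eval (entries ((y * y) ^ m)) p = 0) → eval (entries y) p = 0 := by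
    clear key hs
    classical
    induction s using Finset.induction_on with
    | empty => exact ⟨1, one_pos, by simp⟩
    | insert p s _ ih =>
      obtain ⟨ε₁, hε₁, h₁⟩ := ih
      obtain ⟨ε₂, hε₂, h₂⟩ := sqa_main (sqa_poly p)
      refine ⟨min ε₁ ε₂, lt_min hε₁ hε₂, fun q hq y hy h0 => ?_⟩
      have hy1 : Near ε₁ y := fun i j => (hy i j).trans_le (min_le_left _ _)
      have hy2 : Near ε₂ y := fun i j => (hy i j).trans_le (min_le_right _ _)
      rcases Finset.mem_insert.1 hq with rfl | hq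
      · exact h₂ y hy2 h0
      · exact h₁ q hq y hy1 h0
  obtain ⟨ε, hε, h⟩ := heps
  refine ⟨ε, hε, fun y hy hyA => ?_⟩
  rw [key]
  intro p hp
  refine h p hp y hy fun m => ?_
  exact (key _).1 (A.pow_mem hyA m) p hp

end Pool.Agent.Helper43.RS
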